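import Pool.Agent.H354.BG.Stm

set_option autoImplicit false
set_option linter.unusedSectionVars false

/-! Project BG, task ACT: trivial words act trivially. -/

namespace Pool.Agent.H289.BG.ACT

open Pool.Agent.H354.BG
open Pool.Agent.H482R3.EA (W inv ev PP xx evF cond1 cond2 Syl gOf Sys St Near InD Adm Act)
open Pool.Agent.H482R3.EB (tot wp alt rels AR gR TR Tame Symm alt_length)

lemma act_pt1 {S : Sys} (A : Act S) (ω : A.Ω) (l m : S.Ln) (p : S.P) (hl : S.I p l)
    (hm : S.I p m) : A.act ω l (S.x l p) = A.act ω m (S.x m p) := by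
  have h1 := A.act_pt ω l m p 1 hl hm
  rwa [zpow_one, zpow_one] at h1

section
variable (D : Dat) (U : Finset (Fin D.r)) (b : Fin D.r) (h : SysOK D U b)
  (A : Act (sysX D U b h))

noncomputable def actB (ω : A.Ω) (q : D.A ⧸ H0 D U b) (y : par D {b}) : A.Ω :=
  A.act ω (Sum.inl q : Ln D U b) y

noncomputable def actL (ω : A.Ω) (q : Σ i : LI D U b, D.A ⧸ Hw D U b i.1.2)
    (y : FreeGroup (Fin (kk D q.1.1.1 q.1.1.2))) : A.Ω :=
  A.act ω (Sum.inr q : Ln D U b) y

lemma actB_mul (ω : A.Ω) (q : D.A ⧸ H0 D U b) (y y' : par D {b}) :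
    actB D U b h A (actB D U b h A ω q y) q y' = actB D U b h A ω q (y * y') :=
  A.act_mul ω (Sum.inl q : Ln D U b) y y'

lemma actB_one (ω : A.Ω) (q : D.A ⧸ H0 D U b) : actB D U b h A ω q 1 = ω :=
  A.act_one ω (Sum.inl q : Ln D U b)

lemma actL_mul (ω : A.Ω) (q : Σ i : LI D U b, D.A ⧸ Hw D U b i.1.2)
    (y y' : FreeGroup (Fin (kk D q.1.1.1 q.1.1.2))) :
    actL D U b h A (actL D U b h A ω q y) q y' = actL D U b h A ω q (y * y') :=
  A.act_mul ω (Sum.inr q : Ln D U b) y y'

lemma actL_one (ω : A.Ω) (q : Σ i : LI D U b, D.A ⧸ Hw D U b i.1.2) :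
    actL D U b h A ω q 1 = ω :=
  A.act_one ω (Sum.inr q : Ln D U b)

lemma act_pt (ω : A.Ω) (v w : Fin D.n) (hc : okL D U b v w)
    (C : D.A ⧸ Hw D U b w) (g : D.A)
    (hg : (QuotientGroup.mk g : D.A ⧸ Hw D U b w) = C) :
    actB D U b h A ω (QuotientGroup.mk g) (rhoP D b (gR D.m v)) =
      actL D U b h A ω ⟨(⟨(v, w), hc⟩ : LI D U b), C⟩
        (xx (kk D v w) (eg D (D.β w) ((C.out : D.A)⁻¹ * g))) := by
  have h1 := act_pt1 A ω (Sum.inl (QuotientGroup.mk g) : Ln D U b)
    (Sum.inr ⟨(⟨(v, w), hc⟩ : LI D U b), C⟩ : Ln D U b)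
    ((QuotientGroup.mk g, ⟨v, hc.1⟩) : Pt D U b) rfl ⟨rfl, g, rfl, hg.symm⟩
  refine h1.trans ?_
  have h2 : eg D (D.β w) ((C.out : D.A)⁻¹ * (QuotientGroup.mk g : D.A ⧸ H0 D U b).out) =
      eg D (D.β w) ((C.out : D.A)⁻¹ * g) := by
    obtain ⟨z, hz⟩ := QuotientGroup.mk_out_eq_mul (H0 D U b) g
    rw [hz, ← mul_assoc, eg_mul, eg_H0 D U b hc z.2, add_zero]
  rw [← h2]
  rfl

lemma rc_in {s : Fin D.n} (hs : D.β s = b) (e : Bool) : rho D {b}ᶜ (lt D (s, e)) = 1 := by
  rw [rho_lt, if_neg]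
  simp [hs]

lemma rc_out {s : Fin D.n} (hs : D.β s ≠ b) (e : Bool) :
    rho D {b}ᶜ (lt D (s, e)) = lt D (s, e) := by
  rw [rho_lt, if_pos]
  simp [hs]

lemma rP_out {s : Fin D.n} (hs : D.β s ≠ b) (e : Bool) : rhoP D b (lt D (s, e)) = 1 := by
  apply Subtype.ext
  rw [rhoP_coe, rho_lt, if_neg]
  · rfl
  · simp [hs]

lemma step_in {s : Fin D.n} (hs : D.β s = b) (e : Bool) (x : A.Ω × D.A) :
    stepX D U b h A x (s, e) =
      (actB D U b h A x.1 (QuotientGroup.mk x.2) (rhoP D b (lt D (s, e))), x.2) := by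
  unfold stepX
  rw [rc_in D b hs, mul_one]
  rfl

lemma step_out {s : Fin D.n} (hs : D.β s ≠ b) (e : Bool) (x : A.Ω × D.A) :
    stepX D U b h A x (s, e) = (x.1, x.2 * lt D (s, e)) := by
  unfold stepX
  rw [rc_out D b hs, rP_out D b hs]
  exact Prod.ext (actB_one D U b h A x.1 (QuotientGroup.mk x.2)) rfl

lemma lt_inv (s : Fin D.n) (e : Bool) : lt D (s, e) * lt D (s, !e) = 1 := by
  cases e
  · change (gR D.m s)⁻¹ * gR D.m s = 1
    exact inv_mul_cancel _
  · change gR D.m s * (gR D.m s)⁻¹ = 1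
    exact mul_inv_cancel _

lemma step_inv (s : Fin D.n) (e : Bool) (x : A.Ω × D.A) :
    stepX D U b h A (stepX D U b h A x (s, e)) (s, !e) = x := by
  by_cases hs : D.β s = b
  · rw [step_in D U b h A hs, step_in D U b h A hs]
    refine Prod.ext ?_ rfl
    change actB D U b h A (actB D U b h A x.1 (QuotientGroup.mk x.2) _)
      (QuotientGroup.mk x.2) _ = x.1
    rw [actB_mul, ← map_mul, lt_inv, map_one, actB_one]
  · rw [step_out D U b h A hs, step_out D U b h A hs]
    refine Prod.ext rfl ?_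
    change x.2 * lt D (s, e) * lt D (s, !e) = x.2
    rw [mul_assoc, lt_inv, mul_one]

/-- the permutation of a positive letter -/
noncomputable def pos (s : Fin D.n) : Equiv.Perm (A.Ω × D.A) where
  toFun x := stepX D U b h A x (s, true)
  invFun x := stepX D U b h A x (s, false)
  left_inv x := step_inv D U b h A s true x
  right_inv x := step_inv D U b h A s false x

lemma pos_in {s : Fin D.n} (hs : D.β s = b) (ω : A.Ω) (g : D.A) :
    pos D U b h A s (ω, g) =
      (actB D U b h A ω (QuotientGroup.mk g) (rhoP D b (gR D.m s)), g) :=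
  step_in D U b h A hs true (ω, g)

lemma pos_out {s : Fin D.n} (hs : D.β s ≠ b) (ω : A.Ω) (g : D.A) :
    pos D U b h A s (ω, g) = (ω, g * gR D.m s) :=
  step_out D U b h A hs true (ω, g)

lemma alt_in (n : ℕ) : ∀ (s t : Fin D.n), D.β s = b → D.β t = b → ∀ (ω : A.Ω) (g : D.A),
    MulOpposite.unop (((alt s t n).map (fun a => (MulOpposite.op (pos D U b h A a) :
      (Equiv.Perm (A.Ω × D.A))ᵐᵒᵖ))).prod) (ω, g) =
      (actB D U b h A ω (QuotientGroup.mk g)
        (rhoP D b (((alt s t n).map (gR D.m)).prod)), g) := by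
  induction n with
  | zero => intro s t _ _ ω g; simp [alt, actB_one]
  | succ n ih =>
    intro s t hs ht ω g
    have e : alt s t (n + 1) = s :: alt t s n := rfl
    rw [e, List.map_cons, List.prod_cons, List.map_cons, List.prod_cons, MulOpposite.unop_mul,
      Equiv.Perm.mul_apply, MulOpposite.unop_op, pos_in D U b h A hs, ih t s ht hs, actB_mul,
      map_mul]

lemma alt_out (n : ℕ) : ∀ (s t : Fin D.n), D.β s ≠ b → D.β t ≠ b → ∀ (ω : A.Ω) (g : D.A),
    MulOpposite.unop (((alt s t n).map (fun a => (MulOpposite.op (pos D U b h A a) :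
      (Equiv.Perm (A.Ω × D.A))ᵐᵒᵖ))).prod) (ω, g) =
      (ω, g * ((alt s t n).map (gR D.m)).prod) := by
  induction n with
  | zero => intro s t _ _ ω g; simp [alt]
  | succ n ih =>
    intro s t hs ht ω g
    have e : alt s t (n + 1) = s :: alt t s n := rfl
    rw [e, List.map_cons, List.prod_cons, List.map_cons, List.prod_cons, MulOpposite.unop_mul,
      Equiv.Perm.mul_apply, MulOpposite.unop_op, pos_out D U b h A hs, ih t s ht hs, mul_assoc]

/-- the product `x_d x_{d+1} ... x_{d+n-1}` -/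
noncomputable def PX (k : ℕ) (d : ℤ) (n : ℕ) : FreeGroup (Fin k) :=
  (List.ofFn fun r : Fin n => xx k (d + (r : ℕ))).prod

lemma PX_zero (k : ℕ) (d : ℤ) : PX k d 0 = 1 := by simp [PX]

lemma PX_succ (k : ℕ) (d : ℤ) (n : ℕ) : PX k d (n + 1) = PX k d n * xx k (d + n) := by
  unfold PX
  rw [List.ofFn_succ', List.concat_eq_append, List.prod_append]
  simp

lemma mk_mul_pow {w : Fin D.n} (hw : D.β w ∈ U) (g : D.A) (n : ℕ) :
    (QuotientGroup.mk (g * gR D.m w ^ n) : D.A ⧸ Hw D U b w) = QuotientGroup.mk g := by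
  symm
  rw [QuotientGroup.eq, inv_mul_cancel_left, mem_Hw]
  refine ⟨n, 1, Subgroup.one_mem _, ?_⟩
  rw [mul_one, zpow_natCast, map_pow, rho_gR, if_pos hw]

lemma pow_VW (v w : Fin D.n) (hc : okL D U b v w) (n : ℕ)
    (ω : A.Ω) (g : D.A) :
    ((pos D U b h A w * pos D U b h A v) ^ n) (ω, g) =
      (actL D U b h A ω ⟨(⟨(v, w), hc⟩ : LI D U b), QuotientGroup.mk g⟩
        (PX (kk D v w) (eg D (D.β w) (((QuotientGroup.mk g :
          D.A ⧸ Hw D U b w).out : D.A)⁻¹ * g)) n),
        g * gR D.m w ^ n) := by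
  induction n with
  | zero =>
    rw [pow_zero, PX_zero, actL_one]; simp
  | succ n ih =>
    rw [pow_succ', Equiv.Perm.mul_apply, ih, Equiv.Perm.mul_apply, pos_in D U b h A hc.1,
      pos_out D U b h A hc.2.2.1,
      act_pt D U b h A _ v w hc (QuotientGroup.mk g) _ (mk_mul_pow D U b hc.2.1 g n), PX_succ]
    have e : eg D (D.β w) (((QuotientGroup.mk g :
          D.A ⧸ Hw D U b w).out : D.A)⁻¹ *
          (g * gR D.m w ^ n)) = eg D (D.β w) (((QuotientGroup.mk g :
          D.A ⧸ Hw D U b w).out : D.A)⁻¹ * g) + n := by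
      rw [← mul_assoc, eg_mul, ← zpow_natCast, eg_gR_zpow]
    rw [e]
    refine Prod.ext ?_ ?_
    · exact actL_mul D U b h A ω ⟨(⟨(v, w), hc⟩ : LI D U b), QuotientGroup.mk g⟩ _ _
    · show g * gR D.m w ^ n * gR D.m w = g * gR D.m w ^ (n + 1)
      rw [pow_succ, mul_assoc]

lemma pow_WV (v w : Fin D.n) (hc : okL D U b v w) (n : ℕ)
    (ω : A.Ω) (g : D.A) :
    ((pos D U b h A v * pos D U b h A w) ^ n) (ω, g) =
      (actL D U b h A ω ⟨(⟨(v, w), hc⟩ : LI D U b), QuotientGroup.mk g⟩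
        (PX (kk D v w) (eg D (D.β w) (((QuotientGroup.mk g :
          D.A ⧸ Hw D U b w).out : D.A)⁻¹ * g) + 1) n),
        g * gR D.m w ^ n) := by
  induction n with
  | zero =>
    rw [pow_zero, PX_zero, actL_one]; simp
  | succ n ih =>
    rw [pow_succ', Equiv.Perm.mul_apply, ih, Equiv.Perm.mul_apply,
      pos_out D U b h A hc.2.2.1, pos_in D U b h A hc.1]
    have e2 : g * gR D.m w ^ n * gR D.m w = g * gR D.m w ^ (n + 1) := by
      rw [pow_succ, mul_assoc]
    rw [e2, act_pt D U b h A _ v w hc (QuotientGroup.mk g) _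
      (mk_mul_pow D U b hc.2.1 g (n + 1)), PX_succ]
    have e : eg D (D.β w) (((QuotientGroup.mk g :
          D.A ⧸ Hw D U b w).out : D.A)⁻¹ *
          (g * gR D.m w ^ (n + 1))) = eg D (D.β w) (((QuotientGroup.mk g :
          D.A ⧸ Hw D U b w).out : D.A)⁻¹ * g) + 1 + n := by
      rw [← mul_assoc, eg_mul, ← zpow_natCast, eg_gR_zpow]
      push_cast
      ring
    rw [e]
    refine Prod.ext ?_ rfl
    exact actL_mul D U b h A ω ⟨(⟨(v, w), hc⟩ : LI D U b), QuotientGroup.mk g⟩ _ _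

lemma PX_full (k : ℕ) (hk : 0 < k) (d : ℤ) : PX k d k = PP k :=
  (Pool.Agent.H482R3.EB.Asm.xx k hk).2.1 d

lemma rel_VW (v w : Fin D.n) (hc : okL D U b v w) :
    (pos D U b h A w * pos D U b h A v) ^ (kk D v w) =
      (pos D U b h A v * pos D U b h A w) ^ (kk D v w) := by
  have hk : 0 < kk D v w := by
    have := (kk_spec D hc).1
    omega
  ext1 ⟨ω, g⟩
  rw [pow_VW D U b h A v w hc, pow_WV D U b h A v w hc, PX_full _ hk, PX_full _ hk]

lemma comm_VW (v w : Fin D.n) (hv : D.β v = b) (hw : D.β w ≠ b)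
    (hH : gR D.m w ∈ H0 D U b) :
    pos D U b h A w * pos D U b h A v = pos D U b h A v * pos D U b h A w := by
  ext1 ⟨ω, g⟩
  rw [Equiv.Perm.mul_apply, Equiv.Perm.mul_apply, pos_in D U b h A hv,
    pos_out D U b h A hw, pos_out D U b h A hw, pos_in D U b h A hv]
  have h1 : (QuotientGroup.mk (g * gR D.m w) : D.A ⧸ H0 D U b) = QuotientGroup.mk g := by
    symm
    rw [QuotientGroup.eq, inv_mul_cancel_left]
    exact hH
  rw [h1]

lemma mixed (v w : Fin D.n) (hv : D.β v = b) (hw : D.β w ≠ b) (hm : D.m v w ≠ 0) (k : ℕ)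
    (hk : D.m v w = 2 * k) :
    (pos D U b h A w * pos D U b h A v) ^ k = (pos D U b h A v * pos D U b h A w) ^ k := by
  by_cases hH : gR D.m w ∈ H0 D U b
  · rw [comm_VW D U b h A v w hv hw hH]
  · have hU : D.β w ∈ U := by
      by_contra hcon
      apply hH
      rw [mem_H0, rho_gR, if_neg hcon]
      exact Subgroup.one_mem _
    have hR : D.R b (D.β w) = false := by
      by_contra hcon
      apply hH
      rw [Bool.not_eq_false] at hcon
      rw [mem_H0, rho_gR, if_pos hU]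
      exact gR_mem_par D ((mem_pZ D U b).2 ⟨hU, hw, hcon⟩)
    have hc : okL D U b v w := ⟨hv, hU, hw, hR, hm⟩
    have hkk : kk D v w = k := by
      unfold kk
      omega
    rw [← hkk]
    exact rel_VW D U b h A v w hc

noncomputable def fO (s : Fin D.n) : (Equiv.Perm (A.Ω × D.A))ᵐᵒᵖ :=
  MulOpposite.op (pos D U b h A s)

lemma run_eq (u : W (Fin D.n)) : ∀ x : A.Ω × D.A,
    runX D U b h A u x = (MulOpposite.unop (ev (fO D U b h A) u)) x := by
  induction u with
  | nil => intro x; simp [runX, ev]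
  | cons a u ih =>
    intro x
    have e1 : runX D U b h A (a :: u) x = runX D U b h A u (stepX D U b h A x a) := rfl
    have e2 : ev (fO D U b h A) (a :: u) =
        (if a.2 then fO D U b h A a.1 else (fO D U b h A a.1)⁻¹) * ev (fO D U b h A) u := by
      simp [ev]
    rw [e1, ih, e2, MulOpposite.unop_mul, Equiv.Perm.mul_apply]
    congr 1
    obtain ⟨s, e⟩ := a
    cases e
    · rfl
    · rfl

lemma relO (s t : Fin D.n) (hst : s ≠ t) (h0 : D.m s t ≠ 0) :
    ((alt s t (D.m s t)).map (fO D U b h A)).prod =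
      ((alt t s (D.m s t)).map (fO D U b h A)).prod := by
  by_cases hs : D.β s = b
  · by_cases ht : D.β t = b
    · apply MulOpposite.unop_injective
      apply Equiv.ext
      rintro ⟨ω, g⟩
      have e1 := alt_in D U b h A (D.m s t) s t hs ht ω g
      have e2 := alt_in D U b h A (D.m s t) t s ht hs ω g
      rw [rel_eq D s t hst h0] at e1
      exact e1.trans e2.symm
    · obtain ⟨k, hk⟩ := even_of_ne D s t (fun h' => ht (h' ▸ hs))
      have h1 := mixed D U b h A s t hs ht h0 k hk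
      rw [hk, alt_two, alt_two]
      unfold fO
      rw [← MulOpposite.op_mul, ← MulOpposite.op_mul, ← MulOpposite.op_pow,
        ← MulOpposite.op_pow, h1]
  · by_cases ht : D.β t = b
    · obtain ⟨k, hk⟩ := even_of_ne D s t (fun h' => hs (h' ▸ ht))
      have h1 := mixed D U b h A t s ht hs (by rw [D.symm]; exact h0) k
        (by rw [D.symm]; exact hk)
      rw [hk, alt_two, alt_two]
      unfold fO
      rw [← MulOpposite.op_mul, ← MulOpposite.op_mul, ← MulOpposite.op_pow,
        ← MulOpposite.op_pow, h1]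
    · apply MulOpposite.unop_injective
      apply Equiv.ext
      rintro ⟨ω, g⟩
      have e1 := alt_out D U b h A (D.m s t) s t hs ht ω g
      have e2 := alt_out D U b h A (D.m s t) t s ht hs ω g
      rw [rel_eq D s t hst h0] at e1
      exact e1.trans e2.symm

noncomputable def psi : D.A →* (Equiv.Perm (A.Ω × D.A))ᵐᵒᵖ :=
  PresentedGroup.toGroup (f := fO D U b h A) (by
    rintro r ⟨s, t, hst, h0, rfl⟩
    rw [map_mul, map_inv, map_list_prod, map_list_prod, List.map_map, List.map_map]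
    have e : (⇑(FreeGroup.lift (fO D U b h A)) ∘ FreeGroup.of) = fO D U b h A := by
      funext a; simp
    rw [e, mul_inv_eq_one]
    exact relO D U b h A s t hst h0)

lemma psi_gR (s : Fin D.n) : psi D U b h A (gR D.m s) = fO D U b h A s :=
  PresentedGroup.toGroup.of _

lemma psi_gEl (u : W (Fin D.n)) : psi D U b h A (gEl D u) = ev (fO D U b h A) u := by
  induction u with
  | nil => exact map_one _
  | cons a u ih =>
    have e2 : ev (fO D U b h A) (a :: u) =
        (if a.2 then fO D U b h A a.1 else (fO D U b h A a.1)⁻¹) * ev (fO D U b h A) u := by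
      simp [ev]
    rw [gEl_cons, map_mul, ih, e2]
    congr 1
    obtain ⟨s, e⟩ := a
    cases e
    · rw [lt_false, map_inv, psi_gR]; rfl
    · rw [lt_true, psi_gR]; rfl

end

theorem t_ACTX : S_ACTX := by
  intro D U b hb h A u hu x
  rw [run_eq, ← psi_gEl, hu, map_one]
  rfl

end Pool.Agent.H289.BG.ACT
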